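import Pool.Agent.Lib.MP_b5021c_nt.IfaceSF

/-!
# Board b5, chapter SF, row SF_HPG

Positive real part on the circle, bounded from below in the disc: `Hp3S` at every point of the disc,
by the Moebius substitution `z ↦ (z + s) / (1 + conj s z)`, cleared of denominators.
-/

namespace Pool.Agent.B5.SFH88

open Polynomial Pool.Agent.B5

/-- The Moebius substitution, cleared of denominators. -/
noncomputable def mob (s : ℂ) (N : ℕ) (p : ℂ[X]) : ℂ[X] :=
  ∑ k ∈ Finset.range (N + 1),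
    C (p.coeff k) * (X + C s) ^ k * (1 + C ((starRingEnd ℂ) s) * X) ^ (N - k)

theorem den_ne {s z : ℂ} (hs : ‖s‖ < 1) (hz : ‖z‖ ≤ 1) : 1 + (starRingEnd ℂ) s * z ≠ 0 := by
  intro h
  have h1 : (starRingEnd ℂ) s * z = -1 := by linear_combination h
  have h2 : ‖(starRingEnd ℂ) s * z‖ = 1 := by rw [h1]; simp
  rw [norm_mul, RCLike.norm_conj] at h2
  have h3 : ‖s‖ * ‖z‖ ≤ ‖s‖ * 1 := mul_le_mul_of_nonneg_left hz (norm_nonneg _)
  linarith

theorem mob_eval {s z : ℂ} {N : ℕ} {p : ℂ[X]} (hp : p.natDegree ≤ N)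
    (hd : 1 + (starRingEnd ℂ) s * z ≠ 0) :
    (mob s N p).eval z =
      (1 + (starRingEnd ℂ) s * z) ^ N * p.eval ((z + s) / (1 + (starRingEnd ℂ) s * z)) := by
  rw [mob, eval_finsetSum, eval_eq_sum_range' (Nat.lt_succ_of_le hp), Finset.mul_sum]
  refine Finset.sum_congr rfl fun k hk => ?_
  have hk' : k ≤ N := Nat.lt_succ_iff.mp (Finset.mem_range.mp hk)
  simp only [eval_mul, eval_pow, eval_add, eval_C, eval_X, eval_one]
  rw [div_pow]
  have h1 : (1 + (starRingEnd ℂ) s * z) ^ N =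
      (1 + (starRingEnd ℂ) s * z) ^ (N - k) * (1 + (starRingEnd ℂ) s * z) ^ k := by
    rw [← pow_add, Nat.sub_add_cancel hk']
  have hk0 : (1 + (starRingEnd ℂ) s * z) ^ k ≠ 0 := pow_ne_zero _ hd
  rw [h1]
  generalize (1 + (starRingEnd ℂ) s * z) ^ k = a at hk0 ⊢
  field_simp

theorem id_sq (s z : ℂ) : ‖1 + (starRingEnd ℂ) s * z‖ ^ 2 - ‖z + s‖ ^ 2 =
    (1 - ‖z‖ ^ 2) * (1 - ‖s‖ ^ 2) := by
  simp only [← Complex.normSq_eq_norm_sq, Complex.normSq_apply, Complex.add_re, Complex.add_im,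
    Complex.mul_re, Complex.mul_im, Complex.conj_re, Complex.conj_im, Complex.one_re,
    Complex.one_im]
  ring

theorem norm_in {s z : ℂ} (hs : ‖s‖ < 1) (hz : ‖z‖ < 1) :
    ‖(z + s) / (1 + (starRingEnd ℂ) s * z)‖ < 1 := by
  have hd := den_ne hs hz.le
  rw [norm_div, div_lt_one (norm_pos_iff.mpr hd)]
  have h := id_sq s z
  have h1 : 0 < (1 - ‖z‖ ^ 2) * (1 - ‖s‖ ^ 2) := by
    apply mul_pos
    · nlinarith [norm_nonneg z]
    · nlinarith [norm_nonneg s]
  exact lt_of_pow_lt_pow_left₀ 2 (norm_nonneg _) (by linarith)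

theorem norm_on {s z : ℂ} (hs : ‖s‖ < 1) (hz : ‖z‖ = 1) :
    ‖(z + s) / (1 + (starRingEnd ℂ) s * z)‖ = 1 := by
  have hd := den_ne hs hz.le
  rw [norm_div, div_eq_one_iff_eq (norm_ne_zero_iff.mpr hd)]
  have h := id_sq s z
  rw [hz] at h
  have h2 : ‖z + s‖ ^ 2 = ‖1 + (starRingEnd ℂ) s * z‖ ^ 2 := by linarith
  exact (pow_left_inj₀ (norm_nonneg _) (norm_nonneg _) two_ne_zero).mp h2

theorem re_id (d a b : ℂ) (N : ℕ) :
    ((d ^ N * a) * (starRingEnd ℂ) (d ^ N * b)).re =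
      (‖d‖ ^ N) ^ 2 * (a * (starRingEnd ℂ) b).re := by
  have h : (d ^ N * a) * (starRingEnd ℂ) (d ^ N * b) =
      (((‖d‖ ^ N) ^ 2 : ℝ) : ℂ) * (a * (starRingEnd ℂ) b) := by
    have h1 : d ^ N * (starRingEnd ℂ) (d ^ N) = (((‖d‖ ^ N) ^ 2 : ℝ) : ℂ) := by
      rw [Complex.mul_conj, Complex.normSq_eq_norm_sq, norm_pow]
    rw [map_mul]
    linear_combination (a * (starRingEnd ℂ) b) * h1
  rw [h, Complex.re_ofReal_mul]

theorem hpg_st (hHp : Hp3S) : HpgS := by
  intro v W K hv hlow hcirc s hs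
  set N := max v.natDegree W.natDegree with hN
  have hvN : v.natDegree ≤ N := le_max_left _ _
  have hWN : W.natDegree ≤ N := le_max_right _ _
  have key := hHp (mob s N v) (mob s N W) K ?_ ?_ ?_
  · have h0 : 1 + (starRingEnd ℂ) s * 0 ≠ 0 := by simp
    rw [mob_eval hvN h0, mob_eval hWN h0] at key
    simpa using key
  · intro z hz
    have hd := den_ne hs hz.le
    rw [mob_eval hvN hd]
    exact mul_ne_zero (pow_ne_zero _ hd) (hv _ (norm_in hs hz))
  · intro z hz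
    have hd := den_ne hs hz.le
    rw [mob_eval hvN hd, mob_eval hWN hd, re_id, norm_mul, norm_pow]
    have h := hlow _ (norm_in hs hz)
    have hp : 0 ≤ (‖1 + (starRingEnd ℂ) s * z‖ ^ N) ^ 2 := by positivity
    have h2 := mul_le_mul_of_nonneg_left h hp
    refine le_trans (le_of_eq ?_) h2
    ring
  · intro z hz
    have hd := den_ne hs hz.le
    rw [mob_eval hvN hd, mob_eval hWN hd, re_id]
    exact mul_nonneg (by positivity) (hcirc _ (norm_on hs hz))

end Pool.Agent.B5.SFH88
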